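import Mathlib

set_option linter.unusedSimpArgs false

open scoped Pointwise

namespace Pool.Agent.Results.MP_9cb16a_an.NotOpen

/-! ### Definitions used in the statement -/

/-- A topological space is zero-dimensional if its clopen sets form a base. -/
def ZeroDimensional (X : Type) [TopologicalSpace X] : Prop :=
  TopologicalSpace.IsTopologicalBasis {s : Set X | IsClopen s}

/-- The linear span of the idempotents is norm-dense. -/
def IdempotentsLinearlyDense (A : Type) [NormedCommRing A] [NormedAlgebra ℂ A] : Prop :=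
  Dense (Submodule.span ℂ {e : A | e * e = e} : Set A)

/-- Multiplication `A × A → A` is an open map. -/
def MulOpen (A : Type) [NormedCommRing A] : Prop :=
  IsOpenMap (fun p : A × A => p.1 * p.2)

/-- Multiplication is uniformly open: for every `ε > 0` there is `δ > 0` such that
`B(ab, δ) ⊆ B(a, ε) · B(b, ε)` for all `a, b` in the closed unit ball. -/
def MulUniformlyOpen (A : Type) [NormedCommRing A] : Prop :=
  ∀ ε > (0 : ℝ), ∃ δ > (0 : ℝ), ∀ a b : A, ‖a‖ ≤ 1 → ‖b‖ ≤ 1 →
    Metric.ball (a * b) δ ⊆ Metric.ball a ε * Metric.ball b ε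

/-! ### A general fact: linearly dense idempotents force a zero-dimensional character space -/

lemma zeroDimensional_of_dense (A : Type) [NormedCommRing A] [NormedAlgebra ℂ A] [CompleteSpace A]
    (h : IdempotentsLinearlyDense A) : ZeroDimensional (WeakDual.characterSpace ℂ A) := by
  have hts : TotallySeparatedSpace (WeakDual.characterSpace ℂ A) := by
    rw [totallySeparatedSpace_iff_exists_isClopen]
    intro φ ψ hne
    -- an idempotent separates
    obtain ⟨e, he, hφψ⟩ : ∃ e : A, e * e = e ∧ φ e ≠ ψ e := by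
      by_contra hcon
      push Not at hcon
      apply hne
      have hcont1 : Continuous (fun a : A => φ a) := map_continuous φ
      have hcont2 : Continuous (fun a : A => ψ a) := map_continuous ψ
      have heq : (fun a : A => φ a) = (fun a : A => ψ a) := by
        apply Continuous.ext_on h hcont1 hcont2
        intro a ha
        simp only
        induction ha using Submodule.span_induction with
        | mem x hx => exact hcon x hx
        | zero => simp
        | add x y _ _ hx hy => rw [map_add, map_add, hx, hy]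
        | smul c x _ hx => rw [map_smul, map_smul, hx]
      ext a
      exact congrFun heq a
    have hval : ∀ χ : WeakDual.characterSpace ℂ A, χ e = 0 ∨ χ e = 1 := by
      intro χ
      have h1 : χ e * χ e = χ e := by rw [← map_mul, he]
      by_cases h0 : χ e = 0
      · exact Or.inl h0
      · exact Or.inr (mul_left_cancel₀ h0 (by rw [h1, mul_one]))
    have hcontE : Continuous (fun χ : WeakDual.characterSpace ℂ A => χ e) :=
      (WeakDual.eval_continuous e).comp continuous_subtype_val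
    refine ⟨{χ | χ e = φ e}, ⟨?_, ?_⟩, rfl, fun h => hφψ h.symm⟩
    · exact isClosed_singleton.preimage hcontE
    · have : {χ : WeakDual.characterSpace ℂ A | χ e = φ e} =
          {χ : WeakDual.characterSpace ℂ A | χ e = ψ e}ᶜ := by
        ext χ
        simp only [Set.mem_ofPred_eq, Set.mem_compl_iff]
        rcases hval χ with h1 | h1 <;> rcases hval φ with h2 | h2 <;> rcases hval ψ with h3 | h3 <;>
          rw [h1, h2, h3] <;> simp_all
      rw [this]
      exact (isClosed_singleton.preimage hcontE).isOpen_compl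
  exact loc_compact_Haus_tot_disc_of_zero_dim

/-! ### The algebra -/

/-- The space `ℓ¹`. -/
abbrev L : Type := lp (fun _ : ℕ => ℂ) 1

lemma one_toReal_pos : 0 < (1 : ENNReal).toReal := by norm_num

lemma summable_norm (x : L) : Summable (fun n => ‖x n‖) := by
  have := (lp.hasSum_norm one_toReal_pos x).summable
  simpa using this

lemma norm_eq (x : L) : ‖x‖ = ∑' n, ‖x n‖ := by
  have := lp.norm_rpow_eq_tsum one_toReal_pos x
  simpa using this

lemma memlp_of_summable (f : ℕ → ℂ) (h : Summable (fun n => ‖f n‖)) : Memℓp f 1 := by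
  apply memℓp_gen
  simpa using h

lemma norm_apply_le (x : L) (n : ℕ) : ‖x n‖ ≤ ‖x‖ := lp.norm_apply_le_norm (by norm_num) x n

lemma bil_bound {c : ℕ → ℝ} {C : ℝ} (hc : ∀ k, |c k| ≤ C) (x y : L) (k : ℕ) :
    ‖(c k : ℂ) * (x k * y k)‖ ≤ C * ‖y‖ * ‖x k‖ := by
  rw [norm_mul, norm_mul, Complex.norm_real, Real.norm_eq_abs]
  have h1 := hc k
  have h2 := norm_apply_le y k
  have h3 := norm_nonneg (x k)
  have h4 := norm_nonneg (y k)
  have h5 := abs_nonneg (c k)
  have h6 : 0 ≤ C := h5.trans h1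
  calc |c k| * (‖x k‖ * ‖y k‖) ≤ C * (‖x k‖ * ‖y‖) := by gcongr
    _ = C * ‖y‖ * ‖x k‖ := by ring

/-- The weighted pointwise product on `ℓ¹`. -/
noncomputable def bil (c : ℕ → ℝ) (hc : ∀ k, |c k| ≤ 1) (x y : L) : L :=
  ⟨fun k => (c k : ℂ) * (x k * y k), by
    apply memlp_of_summable
    apply Summable.of_norm_bounded (g := fun k => 1 * ‖y‖ * ‖x k‖) ((summable_norm x).mul_left _)
    intro k
    rw [norm_norm]
    exact bil_bound hc x y k⟩

lemma bil_apply (c : ℕ → ℝ) (hc : ∀ k, |c k| ≤ 1) (x y : L) (k : ℕ) :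
    bil c hc x y k = (c k : ℂ) * (x k * y k) := rfl

lemma norm_bil_le (c : ℕ → ℝ) (hc : ∀ k, |c k| ≤ 1) (x y : L) {C : ℝ} (hC : ∀ k, |c k| ≤ C) :
    ‖bil c hc x y‖ ≤ C * (‖x‖ * ‖y‖) := by
  rw [norm_eq]
  have h : HasSum (fun k => C * ‖y‖ * ‖x k‖) (C * ‖y‖ * ‖x‖) := by
    rw [norm_eq x]
    exact (summable_norm x).hasSum.mul_left _
  have h2 : ∑' k, ‖bil c hc x y k‖ ≤ C * ‖y‖ * ‖x‖ := by
    rw [← h.tsum_eq]
    apply Summable.tsum_le_tsum _ _ h.summable
    · intro k; exact bil_bound hC x y k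
    · exact summable_norm _
  calc _ ≤ C * ‖y‖ * ‖x‖ := h2
    _ = C * (‖x‖ * ‖y‖) := by ring

/-- parameters -/
noncomputable def τ (k : ℕ) : ℝ := (1 / 2) ^ (k + 1)
noncomputable def θ (k : ℕ) : ℝ := τ k ^ 2 / 6
noncomputable def β (k : ℕ) : ℝ := τ k ^ 4 / 400
noncomputable def α (k : ℕ) : ℝ := β k + θ k / 2

lemma τ_pos (k : ℕ) : 0 < τ k := by unfold τ; positivity
lemma τ_le (k : ℕ) : τ k ≤ 1 / 2 := by
  unfold τ
  calc ((1 : ℝ) / 2) ^ (k + 1) ≤ (1 / 2) ^ 1 :=
        pow_le_pow_of_le_one (by norm_num) (by norm_num) (by omega)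
    _ = 1 / 2 := by norm_num
lemma τ_succ (k : ℕ) : τ (k + 1) = τ k / 2 := by unfold τ; rw [pow_succ]; ring
lemma θ_pos (k : ℕ) : 0 < θ k := by unfold θ; have := τ_pos k; positivity
lemma β_pos (k : ℕ) : 0 < β k := by unfold β; have := τ_pos k; positivity
lemma α_pos (k : ℕ) : 0 < α k := by unfold α; have := β_pos k; have := θ_pos k; positivity
lemma τ_sq_le (k : ℕ) : τ k ^ 2 ≤ 1 / 4 := by have := τ_pos k; have := τ_le k; nlinarith
lemma θ_le (k : ℕ) : θ k ≤ 1 / 24 := by unfold θ; have := τ_sq_le k; linarith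
lemma β_le (k : ℕ) : β k ≤ 1 / 6400 := by
  unfold β
  have := τ_sq_le k
  have h0 : 0 ≤ τ k ^ 2 := by positivity
  have : τ k ^ 4 ≤ 1 / 16 := by
    have : τ k ^ 4 = τ k ^ 2 * τ k ^ 2 := by ring
    nlinarith
  linarith
lemma α_le (k : ℕ) : α k ≤ 1 / 4 := by unfold α; have := β_le k; have := θ_le k; linarith

lemma habs {c : ℕ → ℝ} {C : ℝ} (h0 : ∀ k, 0 < c k) (h1 : ∀ k, c k ≤ C) (k : ℕ) : |c k| ≤ C := by
  rw [abs_of_pos (h0 k)]; exact h1 k

noncomputable def γ : ℕ → ℝ := fun _ => 1 / 2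
noncomputable def ρ : ℕ → ℝ := fun k => β k * θ k
lemma ρ_pos (k : ℕ) : 0 < ρ k := mul_pos (β_pos k) (θ_pos k)
lemma ρ_le (k : ℕ) : ρ k ≤ 1 / 4 := by
  unfold ρ
  have := β_pos k; have := θ_pos k; have := β_le k; have := θ_le k
  nlinarith

lemma hα (k : ℕ) : |α k| ≤ 1 / 4 := habs α_pos α_le k
lemma hβ (k : ℕ) : |β k| ≤ 1 / 4 := habs β_pos (fun k => (β_le k).trans (by norm_num)) k
lemma hρ (k : ℕ) : |ρ k| ≤ 1 / 4 := habs ρ_pos ρ_le k
lemma hγ (k : ℕ) : |γ k| ≤ 1 / 2 := by unfold γ; rw [abs_of_pos (by norm_num)]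
lemma hα1 (k : ℕ) : |α k| ≤ 1 := (hα k).trans (by norm_num)
lemma hβ1 (k : ℕ) : |β k| ≤ 1 := (hβ k).trans (by norm_num)
lemma hρ1 (k : ℕ) : |ρ k| ≤ 1 := (hρ k).trans (by norm_num)
lemma hγ1 (k : ℕ) : |γ k| ≤ 1 := (hγ k).trans (by norm_num)

/-- The Banach space underlying the algebra: `ℂ ⊕ ℓ¹ ⊕ ℓ¹` with the sum of the norms. -/
def A : Type := WithLp 1 (ℂ × WithLp 1 (L × L))

noncomputable instance : NormedAddCommGroup A :=
  inferInstanceAs (NormedAddCommGroup (WithLp 1 (ℂ × WithLp 1 (L × L))))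
noncomputable instance : NormedSpace ℂ A :=
  inferInstanceAs (NormedSpace ℂ (WithLp 1 (ℂ × WithLp 1 (L × L))))
instance : CompleteSpace A :=
  inferInstanceAs (CompleteSpace (WithLp 1 (ℂ × WithLp 1 (L × L))))

namespace A

/-- scalar part -/
def c (x : A) : ℂ := WithLp.fst x
/-- first sequence -/
def s (x : A) : L := WithLp.fst (WithLp.snd x)
/-- second sequence -/
def w (x : A) : L := WithLp.snd (WithLp.snd x)
/-- constructor -/
def mk (c : ℂ) (s w : L) : A := WithLp.toLp 1 (c, WithLp.toLp 1 (s, w))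

@[simp] lemma c_mk (c : ℂ) (s w : L) : (mk c s w).c = c := rfl
@[simp] lemma s_mk (c : ℂ) (s w : L) : (mk c s w).s = s := rfl
@[simp] lemma w_mk (c : ℂ) (s w : L) : (mk c s w).w = w := rfl
@[simp] lemma c_add (x y : A) : (x + y).c = x.c + y.c := rfl
@[simp] lemma s_add (x y : A) : (x + y).s = x.s + y.s := rfl
@[simp] lemma w_add (x y : A) : (x + y).w = x.w + y.w := rfl
@[simp] lemma c_sub (x y : A) : (x - y).c = x.c - y.c := rfl
@[simp] lemma s_sub (x y : A) : (x - y).s = x.s - y.s := rfl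
@[simp] lemma w_sub (x y : A) : (x - y).w = x.w - y.w := rfl
@[simp] lemma c_smul (r : ℂ) (y : A) : (r • y).c = r * y.c := rfl
@[simp] lemma s_smul (r : ℂ) (y : A) : (r • y).s = r • y.s := rfl
@[simp] lemma w_smul (r : ℂ) (y : A) : (r • y).w = r • y.w := rfl
@[simp] lemma c_zero : (0 : A).c = 0 := rfl
@[simp] lemma s_zero : (0 : A).s = 0 := rfl
@[simp] lemma w_zero : (0 : A).w = 0 := rfl

lemma norm_def (x : A) : ‖x‖ = ‖x.c‖ + (‖x.s‖ + ‖x.w‖) := by
  have h1 := WithLp.prod_norm_eq_of_L1 (α := ℂ) (β := WithLp 1 (L × L)) x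
  have h2 := WithLp.prod_norm_eq_of_L1 (α := L) (β := L) (WithLp.snd x)
  rw [h2] at h1
  exact h1

lemma ext' {x y : A} (hc : x.c = y.c) (hs : ∀ k, x.s k = y.s k) (hw : ∀ k, x.w k = y.w k) :
    x = y := by
  have h0 : x - y = 0 := by
    rw [← norm_eq_zero, norm_def]
    have h1 : (x - y).c = 0 := by simp [hc]
    have h2 : (x - y).s = 0 := by
      rw [s_sub, sub_eq_zero]; ext k; exact hs k
    have h3 : (x - y).w = 0 := by
      rw [w_sub, sub_eq_zero]; ext k; exact hw k
    rw [h1, h2, h3]; simp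
  exact sub_eq_zero.mp h0

/-- multiplication -/
noncomputable instance : Mul A where
  mul x y := mk (x.c * y.c) (x.c • y.s + y.c • x.s + bil α hα1 x.s y.s)
    (x.c • y.w + y.c • x.w + (bil γ hγ1 x.s y.s + (bil β hβ1 x.s y.w + bil β hβ1 x.w y.s)
      - bil ρ hρ1 x.w y.w))

noncomputable instance : One A where
  one := mk 1 0 0

@[simp] lemma c_one : (1 : A).c = 1 := rfl
@[simp] lemma s_one : (1 : A).s = 0 := rfl
@[simp] lemma w_one : (1 : A).w = 0 := rfl

@[simp] lemma c_mul (x y : A) : (x * y).c = x.c * y.c := rfl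
lemma s_mul_def (x y : A) : (x * y).s = x.c • y.s + y.c • x.s + bil α hα1 x.s y.s := rfl
lemma w_mul_def (x y : A) : (x * y).w = x.c • y.w + y.c • x.w + (bil γ hγ1 x.s y.s +
  (bil β hβ1 x.s y.w + bil β hβ1 x.w y.s) - bil ρ hρ1 x.w y.w) := rfl

lemma s_mul (x y : A) (k : ℕ) : (x * y).s k = x.c * y.s k + y.c * x.s k +
    (α k : ℂ) * (x.s k * y.s k) := rfl
lemma w_mul (x y : A) (k : ℕ) : (x * y).w k = x.c * y.w k + y.c * x.w k +
    ((1 / 2 : ℂ) * (x.s k * y.s k) + ((β k : ℂ) * (x.s k * y.w k) + (β k : ℂ) * (x.w k * y.s k))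
      - (β k * θ k : ℂ) * (x.w k * y.w k)) := by
  have : (x * y).w k = x.c * y.w k + y.c * x.w k +
    ((γ k : ℂ) * (x.s k * y.s k) + ((β k : ℂ) * (x.s k * y.w k) + (β k : ℂ) * (x.w k * y.s k))
      - (ρ k : ℂ) * (x.w k * y.w k)) := rfl
  rw [this]
  unfold γ ρ
  push_cast
  ring

lemma α_eq (k : ℕ) : (α k : ℂ) = β k + θ k / 2 := by unfold α; push_cast; ring

lemma mul_comm' (x y : A) : x * y = y * x := by
  apply ext'
  · simp [mul_comm]
  · intro k; rw [s_mul, s_mul]; ring
  · intro k; rw [w_mul, w_mul]; ring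

lemma mul_assoc' (x y z : A) : x * y * z = x * (y * z) := by
  apply ext'
  · simp [mul_assoc]
  · intro k
    simp only [s_mul, c_mul]
    ring
  · intro k
    simp only [s_mul, w_mul, c_mul, α_eq]
    ring

lemma one_mul' (x : A) : 1 * x = x := by
  apply ext'
  · simp
  · intro k
    rw [s_mul]
    simp
  · intro k
    rw [w_mul]
    simp

lemma left_distrib' (x y z : A) : x * (y + z) = x * y + x * z := by
  apply ext'
  · simp [mul_add]
  · intro k
    have : (x * y + x * z).s k = (x * y).s k + (x * z).s k := rfl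
    rw [this]
    simp only [s_mul]
    have h1 : (y + z).s k = y.s k + z.s k := rfl
    rw [h1, c_add]
    ring
  · intro k
    have : (x * y + x * z).w k = (x * y).w k + (x * z).w k := rfl
    rw [this]
    simp only [w_mul]
    have h1 : (y + z).s k = y.s k + z.s k := rfl
    have h2 : (y + z).w k = y.w k + z.w k := rfl
    rw [h1, h2, c_add]
    ring

lemma smul_mul' (r : ℂ) (x y : A) : r • x * y = r • (x * y) := by
  apply ext'
  · simp [mul_assoc]
  · intro k
    have : (r • (x * y)).s k = r * (x * y).s k := rfl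
    rw [this]
    simp only [s_mul]
    have h1 : (r • x).s k = r * x.s k := rfl
    rw [h1, c_smul]
    ring
  · intro k
    have : (r • (x * y)).w k = r * (x * y).w k := rfl
    rw [this]
    simp only [w_mul]
    have h1 : (r • x).s k = r * x.s k := rfl
    have h2 : (r • x).w k = r * x.w k := rfl
    rw [h1, h2, c_smul]
    ring

lemma norm_mul_le' (x y : A) : ‖x * y‖ ≤ ‖x‖ * ‖y‖ := by
  rw [norm_def, norm_def x, norm_def y, c_mul, norm_mul, s_mul_def, w_mul_def]
  have e1 : ‖x.c • y.s + y.c • x.s + bil α hα1 x.s y.s‖ ≤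
      ‖x.c‖ * ‖y.s‖ + ‖y.c‖ * ‖x.s‖ + 1 / 4 * (‖x.s‖ * ‖y.s‖) := by
    refine (norm_add_le _ _).trans (add_le_add ?_ (norm_bil_le _ _ _ _ hα))
    refine (norm_add_le _ _).trans (add_le_add ?_ ?_) <;> rw [norm_smul]
  have e2 : ‖x.c • y.w + y.c • x.w + (bil γ hγ1 x.s y.s + (bil β hβ1 x.s y.w + bil β hβ1 x.w y.s)
      - bil ρ hρ1 x.w y.w)‖ ≤
      ‖x.c‖ * ‖y.w‖ + ‖y.c‖ * ‖x.w‖ + ((1 / 2 * (‖x.s‖ * ‖y.s‖) + (1 / 4 * (‖x.s‖ * ‖y.w‖) +
        1 / 4 * (‖x.w‖ * ‖y.s‖))) + 1 / 4 * (‖x.w‖ * ‖y.w‖)) := by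
    refine (norm_add_le _ _).trans (add_le_add ?_ ?_)
    · refine (norm_add_le _ _).trans (add_le_add ?_ ?_) <;> rw [norm_smul]
    · refine (norm_sub_le _ _).trans (add_le_add ?_ (norm_bil_le _ _ _ _ hρ))
      refine (norm_add_le _ _).trans (add_le_add (norm_bil_le _ _ _ _ hγ) ?_)
      exact (norm_add_le _ _).trans (add_le_add (norm_bil_le _ _ _ _ hβ) (norm_bil_le _ _ _ _ hβ))
  have p1 := mul_nonneg (norm_nonneg x.s) (norm_nonneg y.s)
  have p2 := mul_nonneg (norm_nonneg x.s) (norm_nonneg y.w)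
  have p3 := mul_nonneg (norm_nonneg x.w) (norm_nonneg y.s)
  have p4 := mul_nonneg (norm_nonneg x.w) (norm_nonneg y.w)
  nlinarith

noncomputable instance : NormedCommRing A where
  mul_comm := mul_comm'
  mul_assoc := mul_assoc'
  one_mul := one_mul'
  mul_one x := by rw [mul_comm']; exact one_mul' x
  left_distrib := left_distrib'
  right_distrib x y z := by rw [mul_comm', left_distrib', mul_comm' z x, mul_comm' z y]
  zero_mul x := by
    apply ext'
    · simp
    · intro k; rw [s_mul]; simp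
    · intro k; rw [w_mul]; simp
  mul_zero x := by
    apply ext'
    · simp
    · intro k; rw [s_mul]; simp
    · intro k; rw [w_mul]; simp
  dist_eq := NormedAddCommGroup.dist_eq
  norm_mul_le := norm_mul_le'

noncomputable instance : NormedAlgebra ℂ A where
  toAlgebra := Algebra.ofModule smul_mul' (fun r x y => by
    rw [mul_comm', smul_mul', mul_comm'])
  norm_smul_le r x := (norm_smul_le r x)

instance : NormOneClass A where
  norm_one := by
    rw [norm_def]; simp

/-- the map `s ↦ (0, s, 0)` -/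
noncomputable def iS : L →L[ℂ] A :=
  LinearMap.mkContinuous
    { toFun := fun s => mk 0 s 0
      map_add' := fun x y => by
        apply ext'
        · simp
        · intro k; simp
        · intro k; simp
      map_smul' := fun r x => by
        apply ext'
        · simp
        · intro k; simp
        · intro k; simp } 1
    (fun x => by
      show ‖mk 0 x 0‖ ≤ 1 * ‖x‖
      rw [norm_def]; simp)

/-- the map `w ↦ (0, 0, w)` -/
noncomputable def iW : L →L[ℂ] A :=
  LinearMap.mkContinuous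
    { toFun := fun w => mk 0 0 w
      map_add' := fun x y => by
        apply ext'
        · simp
        · intro k; simp
        · intro k; simp
      map_smul' := fun r x => by
        apply ext'
        · simp
        · intro k; simp
        · intro k; simp } 1
    (fun x => by
      show ‖mk 0 0 x‖ ≤ 1 * ‖x‖
      rw [norm_def]; simp)

lemma iS_apply (x : L) : iS x = mk 0 x 0 := rfl
lemma iW_apply (x : L) : iW x = mk 0 0 x := rfl

/-- basis vectors of `ℓ¹` -/
noncomputable def e (K : ℕ) (z : ℂ) : L := lp.single 1 K z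

lemma e_self (K : ℕ) (z : ℂ) : e K z K = z := lp.single_apply_self (E := fun _ : ℕ => ℂ) 1 K z
lemma e_ne {K k : ℕ} (z : ℂ) (h : k ≠ K) : e K z k = 0 :=
  lp.single_apply_ne (E := fun _ : ℕ => ℂ) 1 K z h

lemma τ_ne (k : ℕ) : (τ k : ℂ) ≠ 0 := by exact_mod_cast (τ_pos k).ne'
lemma θ_ne (k : ℕ) : (θ k : ℂ) ≠ 0 := by exact_mod_cast (θ_pos k).ne'
lemma β_ne (k : ℕ) : (β k : ℂ) ≠ 0 := by exact_mod_cast (β_pos k).ne'
lemma α_ne (k : ℕ) : (α k : ℂ) ≠ 0 := by exact_mod_cast (α_pos k).ne'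

/-- second idempotent of the block `K` -/
noncomputable def qi (K : ℕ) : A := mk 0 0 (e K (-1 / (β K * θ K)))
/-- first idempotent of the block `K` -/
noncomputable def pi (K : ℕ) : A := mk 0 (e K (1 / α K)) (e K (1 / (α K * θ K)))

lemma qi_mul (K : ℕ) : qi K * qi K = qi K := by
  apply ext'
  · simp [qi]
  · intro k; rw [s_mul]; simp [qi]
  · intro k
    rw [w_mul]
    simp only [qi, c_mk, s_mk, w_mk]
    by_cases h : k = K
    · subst h
      rw [e_self]
      have h1 := β_ne k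
      have h2 := θ_ne k
      simp only [lp.coeFn_zero, Pi.zero_apply]
      field_simp
      ring
    · rw [e_ne _ h]; simp

lemma pi_mul (K : ℕ) : pi K * pi K = pi K := by
  apply ext'
  · simp [pi]
  · intro k
    rw [s_mul]
    simp only [pi, c_mk, s_mk, w_mk]
    by_cases h : k = K
    · subst h
      rw [e_self]
      have h1 := α_ne k
      field_simp
      ring
    · rw [e_ne _ h]; simp
  · intro k
    rw [w_mul]
    simp only [pi, c_mk, s_mk, w_mk]
    by_cases h : k = K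
    · subst h
      rw [e_self, e_self]
      have h1 := α_ne k
      have h2 := θ_ne k
      have h3 : (β k : ℂ) = α k - θ k / 2 := by rw [α_eq]; ring
      rw [h3]
      field_simp
      ring
    · rw [e_ne _ h, e_ne _ h]; simp

/-- the closed span of the idempotents -/
noncomputable def V : Submodule ℂ A := (Submodule.span ℂ {x : A | x * x = x}).topologicalClosure

lemma mem_V_of_idem {x : A} (h : x * x = x) : x ∈ V :=
  Submodule.le_topologicalClosure _ (Submodule.subset_span h)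

lemma single_eq (K : ℕ) (z : ℂ) : (lp.single 1 K z : L) = e K z := rfl

lemma iW_e_mem (K : ℕ) (z : ℂ) : iW (e K z) ∈ V := by
  have h : iW (e K z) = (-(z * (β K * θ K))) • qi K := by
    apply ext'
    · show (0 : ℂ) = -(z * (β K * θ K)) * 0
      ring
    · intro k
      show (0 : ℂ) = -(z * (β K * θ K)) * 0
      ring
    · intro k
      show e K z k = -(z * (β K * θ K)) * e K (-1 / (β K * θ K)) k
      by_cases h : k = K
      · subst h
        rw [e_self, e_self]
        have h1 := β_ne k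
        have h2 := θ_ne k
        field_simp
      · rw [e_ne _ h, e_ne _ h]; simp
  rw [h]
  exact V.smul_mem _ (mem_V_of_idem (qi_mul K))

lemma iS_e_mem (K : ℕ) (z : ℂ) : iS (e K z) ∈ V := by
  have h : iS (e K z) = (z * α K) • pi K - iW (e K (z / θ K)) := by
    apply ext'
    · simp [iW_apply, iS_apply, pi]
    · intro k
      show e K z k = (z * α K) * e K (1 / α K) k - 0
      by_cases h : k = K
      · subst h
        rw [e_self, e_self]
        have h1 := α_ne k
        field_simp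
        ring
      · rw [e_ne _ h, e_ne _ h]; simp
    · intro k
      show 0 = (z * α K) * e K (1 / (α K * θ K)) k - e K (z / θ K) k
      by_cases h : k = K
      · subst h
        rw [e_self, e_self]
        have h1 := α_ne k
        have h2 := θ_ne k
        field_simp
        ring
      · rw [e_ne _ h, e_ne _ h]; simp
  rw [h]
  exact V.sub_mem (V.smul_mem _ (mem_V_of_idem (pi_mul K))) (iW_e_mem K _)

lemma map_mem_V (f : L →L[ℂ] A) (hf : ∀ K z, f (e K z) ∈ V) (x : L) : f x ∈ V := by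
  have h1 : HasSum (fun k => f (lp.single 1 k (x k))) (f x) :=
    (lp.hasSum_single (p := 1) (by norm_num) x).mapL f
  have hcl : IsClosed (V : Set A) := Submodule.isClosed_topologicalClosure _
  apply hcl.mem_of_tendsto h1
  filter_upwards with t
  exact V.sum_mem (fun i _ => hf i _)

lemma dense_idem : IdempotentsLinearlyDense A := by
  intro x
  have hx : x = x.c • (1 : A) + (iS x.s + iW x.w) := by
    apply ext'
    · simp [iS_apply, iW_apply]
    · intro k
      show x.s k = x.c * 0 + (x.s k + 0)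
      ring
    · intro k
      show x.w k = x.c * 0 + (0 + x.w k)
      ring
  have : x ∈ V := by
    rw [hx]
    exact V.add_mem (V.smul_mem _ (mem_V_of_idem (one_mul' 1)))
      (V.add_mem (map_mem_V _ iS_e_mem _) (map_mem_V _ iW_e_mem _))
  exact this

/-! ### Failure of openness -/

/-- the sequence `τ` as an element of `ℓ¹` -/
noncomputable def τL : L := ⟨fun k => (τ k : ℂ), by
  apply memlp_of_summable
  have h : Summable (fun k : ℕ => (1 / 2 : ℝ) * (1 / 2) ^ k) :=
    (summable_geometric_of_lt_one (by norm_num) (by norm_num)).mul_left _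
  convert h using 1
  ext k
  rw [Complex.norm_real, Real.norm_eq_abs, abs_of_pos (τ_pos k)]
  unfold τ
  rw [pow_succ]; ring⟩

lemma τL_apply (k : ℕ) : τL k = (τ k : ℂ) := rfl

lemma norm_τL : ‖τL‖ = 1 := by
  rw [norm_eq]
  have h : HasSum (fun k : ℕ => (1 / 2 : ℝ) * (1 / 2) ^ k) (1 / 2 * 2) :=
    hasSum_geometric_two.mul_left _
  have h2 : (fun k => ‖τL k‖) = (fun k : ℕ => (1 / 2 : ℝ) * (1 / 2) ^ k) := by
    ext k
    rw [τL_apply, Complex.norm_real, Real.norm_eq_abs, abs_of_pos (τ_pos k)]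
    unfold τ
    rw [pow_succ]; ring
  rw [h2, h.tsum_eq]; norm_num

/-- the bad point -/
noncomputable def a : A := mk 0 τL 0

lemma norm_a : ‖a‖ = 1 := by
  rw [norm_def]; simp [a, norm_τL]

/-- the perturbation of `a²` -/
noncomputable def cK (K : ℕ) : A := a * a - iW (e K (4 * β K))

lemma dist_cK (K : ℕ) : ‖cK K - a * a‖ = 4 * β K := by
  have : cK K - a * a = - iW (e K (4 * β K)) := by unfold cK; abel
  rw [this, norm_neg, iW_apply, norm_def]
  simp only [c_mk, s_mk, w_mk, norm_zero, zero_add]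
  unfold e
  rw [lp.norm_single (by norm_num)]
  rw [norm_mul, Complex.norm_real, Real.norm_eq_abs, abs_of_pos (β_pos K)]
  norm_num

/-- The block inequality. -/
lemma block (k : ℕ) (l s w s' w' δ : ℂ) (hs : ‖s‖ ≤ 1) (hw : ‖w‖ ≤ 1) (hs' : ‖s'‖ ≤ 1)
    (hw' : ‖w'‖ ≤ 1) (hδ : ‖δ‖ ≤ 1) (hl : ‖l‖ ≤ α k)
    (E1 : l * s' + (α k : ℂ) * (s * s') = α k * (τ k * τ k))
    (E2 : l * w' + ((1 / 2 : ℂ) * (s * s') + ((β k : ℂ) * (s * w') + (β k : ℂ) * (w * s'))
      - (β k * θ k : ℂ) * (w * w')) = (1 / 2 : ℂ) * (τ k * τ k) - 4 * β k * δ) :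
    ‖l‖ ≤ 7 * β k := by
  have hα0 := α_pos k
  have hβ0 := β_pos k
  have hθ0 := θ_pos k
  have hτ0 := τ_pos k
  have hτ2 := τ_sq_le k
  have hθ1 := θ_le k
  have nα : ‖(α k : ℂ)‖ = α k := by rw [Complex.norm_real, Real.norm_eq_abs, abs_of_pos hα0]
  have nβ : ‖(β k : ℂ)‖ = β k := by rw [Complex.norm_real, Real.norm_eq_abs, abs_of_pos hβ0]
  have nθ : ‖(θ k : ℂ)‖ = θ k := by rw [Complex.norm_real, Real.norm_eq_abs, abs_of_pos hθ0]
  have nτ : ‖(τ k : ℂ)‖ = τ k := by rw [Complex.norm_real, Real.norm_eq_abs, abs_of_pos hτ0]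
  -- lower bound for s'
  have h1 : τ k ^ 2 / 2 ≤ ‖s'‖ := by
    have e1 : s' * (l + α k * s) = α k * (τ k * τ k) := by rw [← E1]; ring
    have e2 : ‖s'‖ * ‖l + α k * s‖ = α k * (τ k * τ k) := by
      rw [← norm_mul, e1, norm_mul, norm_mul, nα, nτ]
    have e3 : ‖l + α k * s‖ ≤ 2 * α k := by
      refine (norm_add_le _ _).trans ?_
      rw [norm_mul, nα]
      nlinarith
    have e4 : α k * (τ k * τ k) ≤ ‖s'‖ * (2 * α k) := by
      rw [← e2]
      exact mul_le_mul_of_nonneg_left e3 (norm_nonneg _)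
    have e5 : α k * (τ k ^ 2 / 2) ≤ α k * ‖s'‖ := by nlinarith
    exact le_of_mul_le_mul_left e5 hα0
  have h2 : τ k ^ 2 / 3 ≤ ‖s' - θ k * w'‖ := by
    have e1 : ‖s'‖ - ‖(θ k : ℂ) * w'‖ ≤ ‖s' - θ k * w'‖ := norm_sub_norm_le _ _
    have e2 : ‖(θ k : ℂ) * w'‖ ≤ θ k := by
      rw [norm_mul, nθ]
      nlinarith
    have e3 : θ k = τ k ^ 2 / 6 := rfl
    linarith
  -- main identity
  have h3 : (α k : ℂ) * (l * (s' - θ k * w')) = β k * (l * s') +
      α k * (β k * θ k * (s * w' + w * s' - θ k * (w * w') + 4 * δ)) := by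
    have hαe := α_eq k
    have hθe : (θ k : ℂ) = 2 * (α k - β k) := by rw [hαe]; ring
    have E2' : (θ k : ℂ) * (l * w') = θ k * ((1 / 2 : ℂ) * (τ k * τ k) - 4 * β k * δ) -
      θ k * ((1 / 2 : ℂ) * (s * s') + ((β k : ℂ) * (s * w') + (β k : ℂ) * (w * s'))
      - (β k * θ k : ℂ) * (w * w')) := by rw [← E2]; ring
    have : (α k : ℂ) * (l * (s' - θ k * w')) = α k * (l * s') - α k * (θ k * (l * w')) := by ring
    rw [this, E2']
    have E1' : l * s' = α k * (τ k * τ k) - (α k : ℂ) * (s * s') := by rw [← E1]; ring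
    rw [E1', hαe]
    ring
  have h4 : α k * (‖l‖ * ‖s' - θ k * w'‖) ≤ β k * ‖l‖ + α k * (β k * θ k * 7) := by
    have e1 : ‖(α k : ℂ) * (l * (s' - θ k * w'))‖ = α k * (‖l‖ * ‖s' - θ k * w'‖) := by
      rw [norm_mul, norm_mul, nα]
    rw [← e1, h3]
    refine (norm_add_le _ _).trans (add_le_add ?_ ?_)
    · rw [norm_mul, norm_mul, nβ]
      have := mul_le_of_le_one_right (norm_nonneg l) hs'
      exact mul_le_mul_of_nonneg_left this hβ0.le
    · rw [norm_mul, norm_mul, norm_mul, nα, nβ, nθ]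
      have e2 : ‖s * w' + w * s' - θ k * (w * w') + 4 * δ‖ ≤ 7 := by
        have a1 : ‖s * w'‖ ≤ 1 := by
          rw [norm_mul]; exact mul_le_one₀ hs (norm_nonneg _) hw'
        have a2 : ‖w * s'‖ ≤ 1 := by
          rw [norm_mul]; exact mul_le_one₀ hw (norm_nonneg _) hs'
        have a3 : ‖(θ k : ℂ) * (w * w')‖ ≤ 1 := by
          rw [norm_mul, nθ, norm_mul]
          have := mul_le_one₀ hw (norm_nonneg _) hw'
          nlinarith
        have a4 : ‖4 * δ‖ ≤ 4 := by
          rw [norm_mul]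
          have : ‖(4 : ℂ)‖ = 4 := by norm_num
          rw [this]; linarith
        calc _ ≤ ‖s * w' + w * s' - θ k * (w * w')‖ + ‖4 * δ‖ := norm_add_le _ _
          _ ≤ (‖s * w' + w * s'‖ + ‖(θ k : ℂ) * (w * w')‖) + ‖4 * δ‖ := by
              gcongr; exact norm_sub_le _ _
          _ ≤ ((‖s * w'‖ + ‖w * s'‖) + ‖(θ k : ℂ) * (w * w')‖) + ‖4 * δ‖ := by
              gcongr; exact norm_add_le _ _
          _ ≤ 7 := by linarith
      have hnn : 0 ≤ β k * θ k := by positivity
      have := mul_le_mul_of_nonneg_left e2 hnn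
      exact mul_le_mul_of_nonneg_left this hα0.le
  -- conclude
  have h5 : β k ≤ α k * (τ k ^ 2 / 6) := by
    have e1 : α k ≥ θ k / 2 := by unfold α; linarith
    have e3 : θ k = τ k ^ 2 / 6 := rfl
    have e4 : β k = τ k ^ 4 / 400 := rfl
    have e5 : α k ≥ τ k ^ 2 / 12 := by rw [e3] at e1; linarith
    have e6 : (τ k ^ 2 / 12) * (τ k ^ 2 / 6) ≤ α k * (τ k ^ 2 / 6) := by gcongr
    rw [e4]
    nlinarith [pow_pos hτ0 4]
  have h6 : α k * (‖l‖ * (τ k ^ 2 / 3)) ≤ α k * (‖l‖ * ‖s' - θ k * w'‖) := by gcongr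
  have h7 : β k * ‖l‖ ≤ α k * (τ k ^ 2 / 6) * ‖l‖ := by gcongr
  have h8 : α k * (‖l‖ * (τ k ^ 2 / 6)) ≤ α k * (β k * θ k * 7) := by nlinarith
  have h9 : ‖l‖ * (τ k ^ 2 / 6) ≤ β k * θ k * 7 := le_of_mul_le_mul_left h8 hα0
  have e3 : θ k = τ k ^ 2 / 6 := rfl
  rw [e3] at h9
  have h10 : (τ k ^ 2 / 6) * ‖l‖ ≤ (τ k ^ 2 / 6) * (7 * β k) := by nlinarith
  exact le_of_mul_le_mul_left h10 (by positivity)

/-- The perturbed block has no solution with `l = 0`. -/
lemma block_zero (k : ℕ) (s w s' w' : ℂ) (hs : ‖s‖ ≤ 1) (hw : ‖w‖ ≤ 1) (hs' : ‖s'‖ ≤ 1)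
    (hw' : ‖w'‖ ≤ 1)
    (E1 : (α k : ℂ) * (s * s') = α k * (τ k * τ k))
    (E2 : ((1 / 2 : ℂ) * (s * s') + ((β k : ℂ) * (s * w') + (β k : ℂ) * (w * s'))
      - (β k * θ k : ℂ) * (w * w')) = (1 / 2 : ℂ) * (τ k * τ k) - 4 * β k) : False := by
  have hθ0 := θ_pos k
  have hθ1 := θ_le k
  have nθ : ‖(θ k : ℂ)‖ = θ k := by rw [Complex.norm_real, Real.norm_eq_abs, abs_of_pos hθ0]
  have e1 : s * s' = τ k * τ k := mul_left_cancel₀ (α_ne k) E1
  rw [e1] at E2
  have e2 : (β k : ℂ) * (s * w' + w * s' - θ k * (w * w')) = β k * (-4) := by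
    linear_combination E2
  have e3 := mul_left_cancel₀ (β_ne k) e2
  have a1 : ‖s * w'‖ ≤ 1 := by
    rw [norm_mul]; exact mul_le_one₀ hs (norm_nonneg _) hw'
  have a2 : ‖w * s'‖ ≤ 1 := by
    rw [norm_mul]; exact mul_le_one₀ hw (norm_nonneg _) hs'
  have a3 : ‖(θ k : ℂ) * (w * w')‖ ≤ 1 := by
    rw [norm_mul, nθ, norm_mul]
    have := mul_le_one₀ hw (norm_nonneg _) hw'
    nlinarith
  have a4 : ‖s * w' + w * s' - θ k * (w * w')‖ ≤ 3 := by
    calc _ ≤ ‖s * w' + w * s'‖ + ‖(θ k : ℂ) * (w * w')‖ := norm_sub_le _ _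
      _ ≤ (‖s * w'‖ + ‖w * s'‖) + ‖(θ k : ℂ) * (w * w')‖ := by
          gcongr; exact norm_add_le _ _
      _ ≤ 3 := by linarith
  rw [e3] at a4
  norm_num at a4

lemma step (k : ℕ) : 7 * β k ≤ α (k + 1) := by
  have hτ0 := τ_pos k
  have hτ2 := τ_sq_le k
  have hβ := β_pos (k + 1)
  have e1 : α (k + 1) = β (k + 1) + θ (k + 1) / 2 := rfl
  have e2 : θ (k + 1) = τ (k + 1) ^ 2 / 6 := rfl
  have e3 : β k = τ k ^ 4 / 400 := rfl
  rw [e1, e2, e3, τ_succ]
  have h : τ k ^ 4 ≤ τ k ^ 2 / 4 := by nlinarith [sq_nonneg (τ k)]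
  nlinarith [sq_nonneg (τ k)]

lemma coord_le {u : A} {ε : ℝ} (hu : ‖u - a‖ < ε) (hε : ε ≤ 1 / 48) (k : ℕ) :
    ‖u.c‖ < 1 / 48 ∧ ‖u.s k‖ ≤ 1 ∧ ‖u.w k‖ ≤ 1 := by
  rw [norm_def] at hu
  have h1 := norm_nonneg (u - a).c
  have h2 := norm_nonneg (u - a).s
  have h3 := norm_nonneg (u - a).w
  have h4 := norm_apply_le (u - a).s k
  have h5 := norm_apply_le (u - a).w k
  refine ⟨?_, ?_, ?_⟩
  · have : (u - a).c = u.c := by simp [a]
    rw [this] at hu h1
    linarith
  · have e1 : u.s k = (u - a).s k + τ k := by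
      show u.s k = (u.s k - τL k) + τ k
      rw [τL_apply]; ring
    rw [e1]
    refine (norm_add_le _ _).trans ?_
    rw [Complex.norm_real, Real.norm_eq_abs, abs_of_pos (τ_pos k)]
    have := τ_le k
    linarith
  · have e1 : u.w k = (u - a).w k := by
      show u.w k = (u.w k - (0 : L) k)
      simp
    rw [e1]
    linarith

/-- No factorisation with `v.c = 0`. -/
lemma no_factor_aux (K : ℕ) (u v : A) (hu : ‖u - a‖ < 1 / 48) (hv : ‖v - a‖ < 1 / 48)
    (huv : u * v = cK K) (hvc : v.c = 0) : False := by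
  have hE1 : ∀ k, u.c * v.s k + (α k : ℂ) * (u.s k * v.s k) = α k * (τ k * τ k) := by
    intro k
    have h1 : (u * v).s k = (cK K).s k := by rw [huv]
    rw [s_mul, hvc] at h1
    have h2 : (cK K).s k = (a * a).s k - 0 := rfl
    rw [h2, s_mul] at h1
    have h3 : a.c = 0 := rfl
    have h4 : a.s k = τ k := rfl
    rw [h3, h4] at h1
    linear_combination h1
  have hE2 : ∀ k, u.c * v.w k + ((1 / 2 : ℂ) * (u.s k * v.s k) + ((β k : ℂ) * (u.s k * v.w k) +
      (β k : ℂ) * (u.w k * v.s k)) - (β k * θ k : ℂ) * (u.w k * v.w k)) =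
      (1 / 2 : ℂ) * (τ k * τ k) - e K (4 * β K) k := by
    intro k
    have h1 : (u * v).w k = (cK K).w k := by rw [huv]
    rw [w_mul, hvc] at h1
    have h2 : (cK K).w k = (a * a).w k - e K (4 * β K) k := rfl
    rw [h2, w_mul] at h1
    have h3 : a.c = 0 := rfl
    have h4 : a.s k = τ k := rfl
    have h5 : a.w k = 0 := rfl
    rw [h3, h4, h5] at h1
    linear_combination h1
  have hub := fun k => coord_le hu le_rfl k
  have hvb := fun k => coord_le hv le_rfl k
  have hall : ∀ k, ‖u.c‖ ≤ α k := by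
    intro k
    induction k with
    | zero =>
      have h1 := (hub 0).1
      have h2 : (1 : ℝ) / 48 ≤ α 0 := by
        have e1 : α 0 = β 0 + θ 0 / 2 := rfl
        have e2 : θ 0 = τ 0 ^ 2 / 6 := rfl
        have e3 : τ 0 = 1 / 2 := by unfold τ; norm_num
        have := β_pos 0
        rw [e1, e2, e3]
        linarith
      linarith
    | succ k ih =>
      have h7 : ‖u.c‖ ≤ 7 * β k := by
        by_cases hk : k = K
        · apply block k u.c (u.s k) (u.w k) (v.s k) (v.w k) 1 (hub k).2.1 (hub k).2.2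
            (hvb k).2.1 (hvb k).2.2 (by simp) ih (hE1 k)
          rw [hE2 k, hk, e_self, mul_one]
        · apply block k u.c (u.s k) (u.w k) (v.s k) (v.w k) 0 (hub k).2.1 (hub k).2.2
            (hvb k).2.1 (hvb k).2.2 (by simp) ih (hE1 k)
          rw [hE2 k, e_ne _ hk, mul_zero]
      exact h7.trans (step k)
  have hc0 : u.c = 0 := by
    rw [← norm_eq_zero]
    apply le_antisymm _ (norm_nonneg _)
    have hlim : Filter.Tendsto α Filter.atTop (nhds 0) := by
      have hτlim : Filter.Tendsto τ Filter.atTop (nhds 0) := by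
        unfold τ
        exact (tendsto_pow_atTop_nhds_zero_of_lt_one (by norm_num) (by norm_num)).comp
          (Filter.tendsto_add_atTop_nat 1)
      have : Filter.Tendsto (fun k => τ k ^ 4 / 400 + (τ k ^ 2 / 6) / 2) Filter.atTop
          (nhds (0 ^ 4 / 400 + (0 ^ 2 / 6) / 2)) :=
        ((hτlim.pow 4).div_const _).add (((hτlim.pow 2).div_const _).div_const _)
      have hfun : α = fun k => τ k ^ 4 / 400 + (τ k ^ 2 / 6) / 2 := rfl
      rw [hfun]
      simpa using this
    exact ge_of_tendsto' hlim hall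
  apply block_zero K (u.s K) (u.w K) (v.s K) (v.w K) (hub K).2.1 (hub K).2.2
    (hvb K).2.1 (hvb K).2.2
  · have := hE1 K
    rw [hc0, zero_mul, zero_add] at this
    exact this
  · have := hE2 K
    rw [hc0, zero_mul, zero_add, e_self] at this
    exact this

lemma no_factor (K : ℕ) (u v : A) (hu : ‖u - a‖ < 1 / 48) (hv : ‖v - a‖ < 1 / 48)
    (huv : u * v = cK K) : False := by
  have h : u.c * v.c = 0 := by
    have h1 : (u * v).c = (cK K).c := by rw [huv]
    rw [c_mul] at h1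
    rw [h1]
    show 0 * 0 - 0 = (0 : ℂ)
    ring
  rcases mul_eq_zero.mp h with h0 | h0
  · exact no_factor_aux K v u hv hu (by rw [mul_comm', huv]) h0
  · exact no_factor_aux K u v hu hv huv h0

lemma exists_small {δ : ℝ} (hδ : 0 < δ) : ∃ K, 4 * β K < δ := by
  have hlim : Filter.Tendsto (fun k => 4 * β k) Filter.atTop (nhds 0) := by
    have hτlim : Filter.Tendsto τ Filter.atTop (nhds 0) := by
      unfold τ
      exact (tendsto_pow_atTop_nhds_zero_of_lt_one (by norm_num) (by norm_num)).comp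
        (Filter.tendsto_add_atTop_nat 1)
    have : Filter.Tendsto (fun k => 4 * (τ k ^ 4 / 400)) Filter.atTop
        (nhds (4 * (0 ^ 4 / 400))) :=
      ((hτlim.pow 4).div_const _).const_mul _
    have hfun : (fun k => 4 * β k) = fun k => 4 * (τ k ^ 4 / 400) := rfl
    rw [hfun]
    simpa using this
  exact ((tendsto_order.mp hlim).2 δ hδ).exists

lemma not_open : ¬ MulOpen A := by
  intro h
  have h1 := h (Metric.ball a (1 / 48) ×ˢ Metric.ball a (1 / 48))
    (Metric.isOpen_ball.prod Metric.isOpen_ball)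
  rw [Metric.isOpen_iff] at h1
  obtain ⟨δ, hδ, hsub⟩ := h1 (a * a) ⟨(a, a), ⟨Metric.mem_ball_self (by norm_num),
    Metric.mem_ball_self (by norm_num)⟩, rfl⟩
  obtain ⟨K, hK⟩ := exists_small hδ
  have hmem : cK K ∈ Metric.ball (a * a) δ := by
    rw [Metric.mem_ball, dist_eq_norm, dist_cK]
    exact hK
  obtain ⟨⟨u, v⟩, ⟨hu, hv⟩, huv⟩ := hsub hmem
  simp only at hu hv huv
  rw [Metric.mem_ball, dist_eq_norm] at hu hv
  exact no_factor K u v hu hv huv

lemma not_uniformly_open : ¬ MulUniformlyOpen A := by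
  intro h
  obtain ⟨δ, hδ, hsub⟩ := h (1 / 48) (by norm_num)
  have hsub := hsub a a norm_a.le norm_a.le
  obtain ⟨K, hK⟩ := exists_small hδ
  have hmem : cK K ∈ Metric.ball (a * a) δ := by
    rw [Metric.mem_ball, dist_eq_norm, dist_cK]
    exact hK
  obtain ⟨u, hu, v, hv, huv⟩ := hsub hmem
  rw [Metric.mem_ball, dist_eq_norm] at hu hv
  exact no_factor K u v hu hv huv

end A

/-- **Negative answer to both questions.** There is a commutative unital complex Banach algebra
(with `‖1‖ = 1`) whose maximal ideal space is zero-dimensional and whose idempotents are linearly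
dense, but whose multiplication is neither open nor uniformly open. -/
theorem result : ∃ (A : Type) (_ : NormedCommRing A) (_ : NormedAlgebra ℂ A) (_ : NormOneClass A)
    (_ : CompleteSpace A), ZeroDimensional (WeakDual.characterSpace ℂ A) ∧
    IdempotentsLinearlyDense A ∧ ¬ MulOpen A ∧ ¬ MulUniformlyOpen A :=
  ⟨A, inferInstance, inferInstance, inferInstance, inferInstance,
    zeroDimensional_of_dense A A.dense_idem, A.dense_idem, A.not_open, A.not_uniformly_open⟩

end Pool.Agent.Results.MP_9cb16a_an.NotOpen
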